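import Pool.Agent.H73.Dol.KKM

/-!
# Dol'nikov's problem: reduction to one fan (colourful KKM)

If none of the finite sets `X 0, X 1, X 2` of the plane can be covered by three translates of `K`,
then for every fan of three sectors there are an apex `c` and a bijection `π` between the colours
and the sectors such that, for every colour `k`, the part of `X k` in the sector `c + S (π k)` cannot
be covered by one translate of `K`.
-/

open Set Metric Filter Topology
open scoped Pointwise

namespace Pool.Agent.H73.Dol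

/-- The closed sector opposite to `u i`: the cone spanned by the two other vectors. -/
def sector (u : Fin 3 → E2) (i : Fin 3) : Set E2 :=
  {x | ∃ a b : ℝ, 0 ≤ a ∧ 0 ≤ b ∧ x = a • u (i + 1) + b • u (i + 2)}

/-- `X` is covered by one translate of `K`. -/
def Cov1 (K X : Set E2) : Prop := ∃ v : E2, X ⊆ v +ᵥ K

/-- coordinates with sum zero with respect to `U 0, U 1, U 2`, `U 0 + U 1 + U 2 = 0` -/
theorem exists_coord (U : Fin 3 → E2) (hU : U 0 + U 1 + U 2 = 0)
    (hli : LinearIndependent ℝ ![U 0, U 1]) :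
    ∃ t : Fin 3 → E2 →ₗ[ℝ] ℝ, (∀ x, x = t 0 x • U 0 + t 1 x • U 1 + t 2 x • U 2) ∧
      ∀ a b : ℝ, t 0 (a • U 0 + b • U 1) = a - (a + b) / 3 ∧
        t 1 (a • U 0 + b • U 1) = b - (a + b) / 3 ∧ t 2 (a • U 0 + b • U 1) = -((a + b) / 3) := by
  classical
  have hcard : Fintype.card (Fin 2) = Module.finrank ℝ E2 := by simp
  set B := basisOfLinearIndependentOfCardEqFinrank hli hcard with hB
  have hB0 : B 0 = U 0 := by
    rw [hB, coe_basisOfLinearIndependentOfCardEqFinrank]; rfl
  have hB1 : B 1 = U 1 := by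
    rw [hB, coe_basisOfLinearIndependentOfCardEqFinrank]; rfl
  set r0 : E2 →ₗ[ℝ] ℝ := B.coord 0 with hr0
  set r1 : E2 →ₗ[ℝ] ℝ := B.coord 1 with hr1
  have hx : ∀ x, x = r0 x • U 0 + r1 x • U 1 := by
    intro x
    have := B.sum_repr x
    rw [Fin.sum_univ_two, hB0, hB1] at this
    exact this.symm
  have h00 : r0 (U 0) = 1 := by rw [← hB0, hr0]; simp
  have h01 : r0 (U 1) = 0 := by rw [← hB1, hr0]; simp
  have h10 : r1 (U 0) = 0 := by rw [← hB0, hr1]; simp
  have h11 : r1 (U 1) = 1 := by rw [← hB1, hr1]; simp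
  set s : E2 →ₗ[ℝ] ℝ := (1 / 3 : ℝ) • (r0 + r1) with hs
  refine ⟨![r0 - s, r1 - s, -s], ?_, ?_⟩
  · intro x
    have h2 : U 2 = -U 0 - U 1 := by
      have : U 2 = -(U 0 + U 1) + (U 0 + U 1 + U 2) := by abel
      rw [this, hU]; abel
    conv_lhs => rw [hx x]
    simp only [Matrix.cons_val_zero, Matrix.cons_val_one, Matrix.cons_val_two, Matrix.head_cons,
      Matrix.tail_cons, LinearMap.sub_apply, LinearMap.neg_apply, Matrix.cons_val]
    rw [h2]
    module
  · intro a b
    simp only [Matrix.cons_val_zero, Matrix.cons_val_one, Matrix.cons_val_two, Matrix.head_cons,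
      Matrix.tail_cons, LinearMap.sub_apply, LinearMap.neg_apply, Matrix.cons_val, map_add, map_smul,
      hs, LinearMap.smul_apply, LinearMap.add_apply, h00, h01, h10, h11, smul_eq_mul]
    refine ⟨by ring, by ring, by ring⟩

theorem fan_reduction (K : Set E2) (X : Fin 3 → Set E2) (hX : ∀ k, (X k).Finite)
    (hno : ∀ k, ¬ ∃ v : Fin 3 → E2, X k ⊆ ⋃ i, (v i +ᵥ K)) (u : Fin 3 → E2) (w : Fin 3 → ℝ)
    (hw : ∀ i, 0 < w i) (hu : w 0 • u 0 + w 1 • u 1 + w 2 • u 2 = 0)
    (hli : LinearIndependent ℝ ![u 0, u 1]) :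
    ∃ (c : E2) (π : Equiv.Perm (Fin 3)), ∀ k, ¬ Cov1 K {x ∈ X k | x - c ∈ sector u (π k)} := by
  classical
  set U : Fin 3 → E2 := fun i => w i • u i with hUdef
  have hU : U 0 + U 1 + U 2 = 0 := hu
  have hliU : LinearIndependent ℝ ![U 0, U 1] := by
    rw [LinearIndependent.pair_iff] at hli ⊢
    intro a b hab
    rw [hUdef] at hab
    simp only [smul_smul] at hab
    obtain ⟨h1, h2⟩ := hli _ _ hab
    exact ⟨(mul_eq_zero.mp h1).resolve_right (hw 0).ne', (mul_eq_zero.mp h2).resolve_right (hw 1).ne'⟩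
  obtain ⟨t, htx, hts⟩ := exists_coord U hU hliU
  have hU2 : U 2 = -U 0 - U 1 := by
    have : U 2 = -(U 0 + U 1) + (U 0 + U 1 + U 2) := by abel
    rw [this, hU]; abel
  -- coordinates of a general combination
  have htc : ∀ a b c : ℝ, a + b + c = 0 → t 0 (a • U 0 + b • U 1 + c • U 2) = a ∧
      t 1 (a • U 0 + b • U 1 + c • U 2) = b ∧ t 2 (a • U 0 + b • U 1 + c • U 2) = c := by
    intro a b c habc
    have e : a • U 0 + b • U 1 + c • U 2 = (a - c) • U 0 + (b - c) • U 1 := by
      rw [hU2]; module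
    rw [e]
    obtain ⟨h0, h1, h2⟩ := hts (a - c) (b - c)
    refine ⟨by rw [h0]; linarith, by rw [h1]; linarith, by rw [h2]; linarith⟩
  set C : E2 → E2 := fun z => tc 0 z • U 0 + tc 1 z • U 1 + tc 2 z • U 2 with hC
  have htC : ∀ i z, t i (C z) = tc i z := by
    intro i z
    obtain ⟨h0, h1, h2⟩ := htc (tc 0 z) (tc 1 z) (tc 2 z) (tc_sum z)
    fin_cases i
    · exact h0
    · exact h1
    · exact h2
  have hsec : ∀ (i : Fin 3) (x : E2), x ∈ sector u i ↔ ∀ j, t i x ≤ t j x := by
    intro i x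
    constructor
    · rintro ⟨a, b, ha, hb, rfl⟩ j
      have hu' : ∀ (m : Fin 3) (a : ℝ), 0 ≤ a → ∃ a' : ℝ, 0 ≤ a' ∧ a • u m = a' • U m := by
        intro m a ha
        refine ⟨a / w m, div_nonneg ha (hw m).le, ?_⟩
        rw [hUdef]
        simp only [smul_smul]
        rw [div_mul_cancel₀ _ (hw m).ne']
      obtain ⟨a', ha0, ea⟩ := hu' (i + 1) a ha
      obtain ⟨b', hb0, eb⟩ := hu' (i + 2) b hb
      rw [ea, eb]
      clear ea eb hu'
      fin_cases i
      · have e : a' • U (0 + 1) + b' • U (0 + 2) = (-(a' + b') / 3) • U 0 +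
            (a' - (a' + b') / 3) • U 1 + (b' - (a' + b') / 3) • U 2 := by
          change a' • U 1 + b' • U 2 = _
          rw [hU2]; module
        obtain ⟨h0, h1, h2⟩ := htc (-(a' + b') / 3) (a' - (a' + b') / 3) (b' - (a' + b') / 3)
          (by ring)
        simp only [Fin.zero_eta]
        rw [e, h0]
        fin_cases j
        · exact h0.ge
        · simp only [Fin.mk_one]; rw [h1]; linarith
        · simp only [Fin.reduceFinMk]; rw [h2]; linarith
      · have e : a' • U (1 + 1) + b' • U (1 + 2) = (b' - (a' + b') / 3) • U 0 +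
            (-(a' + b') / 3) • U 1 + (a' - (a' + b') / 3) • U 2 := by
          change a' • U 2 + b' • U 0 = _
          rw [hU2]; module
        obtain ⟨h0, h1, h2⟩ := htc (b' - (a' + b') / 3) (-(a' + b') / 3) (a' - (a' + b') / 3)
          (by ring)
        simp only [Fin.mk_one]
        rw [e, h1]
        fin_cases j
        · simp only [Fin.zero_eta]; rw [h0]; linarith
        · exact h1.ge
        · simp only [Fin.reduceFinMk]; rw [h2]; linarith
      · have e : a' • U (2 + 1) + b' • U (2 + 2) = (a' - (a' + b') / 3) • U 0 +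
            (b' - (a' + b') / 3) • U 1 + (-(a' + b') / 3) • U 2 := by
          change a' • U 0 + b' • U 1 = _
          rw [hU2]; module
        obtain ⟨h0, h1, h2⟩ := htc (a' - (a' + b') / 3) (b' - (a' + b') / 3) (-(a' + b') / 3)
          (by ring)
        simp only [Fin.reduceFinMk]
        rw [e, h2]
        fin_cases j
        · simp only [Fin.zero_eta]; rw [h0]; linarith
        · simp only [Fin.mk_one]; rw [h1]; linarith
        · exact h2.ge
    · intro h
      have hx := htx x
      refine ⟨(t (i + 1) x - t i x) * w (i + 1), (t (i + 2) x - t i x) * w (i + 2),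
        mul_nonneg (sub_nonneg.mpr (h _)) (hw _).le, mul_nonneg (sub_nonneg.mpr (h _)) (hw _).le, ?_⟩
      have e1 : ((t (i + 1) x - t i x) * w (i + 1)) • u (i + 1) =
          (t (i + 1) x - t i x) • U (i + 1) := by
        rw [mul_smul]
      have e2 : ((t (i + 2) x - t i x) * w (i + 2)) • u (i + 2) =
          (t (i + 2) x - t i x) • U (i + 2) := by
        rw [mul_smul]
      rw [e1, e2]
      fin_cases i
      · change x = (t 1 x - t 0 x) • U 1 + (t 2 x - t 0 x) • U 2
        have : t 0 x • (U 0 + U 1 + U 2) = 0 := by rw [hU, smul_zero]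
        calc x = t 0 x • U 0 + t 1 x • U 1 + t 2 x • U 2 - t 0 x • (U 0 + U 1 + U 2) := by
              rw [this, sub_zero]; exact hx
          _ = _ := by module
      · change x = (t 2 x - t 1 x) • U 2 + (t 0 x - t 1 x) • U 0
        have : t 1 x • (U 0 + U 1 + U 2) = 0 := by rw [hU, smul_zero]
        calc x = t 0 x • U 0 + t 1 x • U 1 + t 2 x • U 2 - t 1 x • (U 0 + U 1 + U 2) := by
              rw [this, sub_zero]; exact hx
          _ = _ := by module
      · change x = (t 0 x - t 2 x) • U 0 + (t 1 x - t 2 x) • U 1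
        have : t 2 x • (U 0 + U 1 + U 2) = 0 := by rw [hU, smul_zero]
        calc x = t 0 x • U 0 + t 1 x • U 1 + t 2 x • U 2 - t 2 x • (U 0 + U 1 + U 2) := by
              rw [this, sub_zero]; exact hx
          _ = _ := by module
  have hsecC : ∀ (i : Fin 3) (x z : E2), x - C z ∈ sector u i ↔
      ∀ j, t i x - tc i z ≤ t j x - tc j z := by
    intro i x z
    rw [hsec]
    simp only [map_sub, htC]
  set A : Fin 3 → Fin 3 → Set E2 := fun k i =>
    {z | ¬ Cov1 K {x ∈ X k | x - C z ∈ sector u i}} with hA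
  have hcl : ∀ k i, IsClosed (A k i) := by
    intro k i
    rw [← isOpen_compl_iff, isOpen_iff_mem_nhds]
    intro z0 hz0
    have hz0' : Cov1 K {x ∈ X k | x - C z0 ∈ sector u i} := not_not.mp hz0
    have hev : ∀ᶠ z in 𝓝 z0, ∀ x ∈ X k, x - C z0 ∉ sector u i → x - C z ∉ sector u i := by
      rw [Filter.eventually_all_finite (hX k)]
      intro x _
      by_cases hx : x - C z0 ∈ sector u i
      · exact Eventually.of_forall fun z h => absurd hx h
      · have hx2 := hx
        rw [hsecC] at hx2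
        push Not at hx2
        obtain ⟨j, hj⟩ := hx2
        have hopen : ∀ᶠ z in 𝓝 z0, t j x - tc j z < t i x - tc i z := by
          have h1 : Continuous fun z => t j x - tc j z := continuous_const.sub (tc_cont j)
          have h2 : Continuous fun z => t i x - tc i z := continuous_const.sub (tc_cont i)
          exact (isOpen_lt h1 h2).mem_nhds hj
        filter_upwards [hopen] with z hz _ hmem
        rw [hsecC] at hmem
        exact absurd (hmem j) (not_le.mpr hz)
    filter_upwards [hev] with z hz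
    rw [mem_compl_iff, hA, mem_ofPred_eq, not_not]
    obtain ⟨v, hv⟩ := hz0'
    refine ⟨v, fun x hx => hv ⟨hx.1, ?_⟩⟩
    by_contra hn
    exact hz x hx.1 hn hx.2
  have hcov : ∀ k z, ∃ i, z ∈ A k i := by
    intro k z
    by_contra hcon
    push Not at hcon
    have hall : ∀ i, Cov1 K {x ∈ X k | x - C z ∈ sector u i} := fun i => not_not.mp (hcon i)
    choose v hv using hall
    apply hno k
    refine ⟨v, fun x hx => ?_⟩
    obtain ⟨i, _, hi⟩ := Finset.exists_min_image (Finset.univ : Finset (Fin 3))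
      (fun i => t i x - tc i z) Finset.univ_nonempty
    rw [mem_iUnion]
    refine ⟨i, hv i ⟨hx, ?_⟩⟩
    rw [hsecC]
    exact fun j => hi j (Finset.mem_univ j)
  -- boundedness
  have hfin : ∃ L : ℝ, ∀ k, ∀ x ∈ X k, ∀ i j, t j x - t i x ≤ L := by
    have h1 : (⋃ k, X k).Finite := Set.finite_iUnion hX
    obtain ⟨L, hL⟩ := (h1.image (fun x => ∑ i, ∑ j, |t j x - t i x|)).bddAbove
    refine ⟨L, fun k x hx i j => ?_⟩
    have h2 : ∑ i, ∑ j, |t j x - t i x| ≤ L := hL ⟨x, mem_iUnion.mpr ⟨k, hx⟩, rfl⟩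
    have h3 : |t j x - t i x| ≤ ∑ j, |t j x - t i x| :=
      Finset.single_le_sum (f := fun j => |t j x - t i x|) (fun _ _ => abs_nonneg _)
        (Finset.mem_univ j)
    have h4 : ∑ j, |t j x - t i x| ≤ ∑ i, ∑ j, |t j x - t i x| :=
      Finset.single_le_sum (f := fun i => ∑ j, |t j x - t i x|)
        (fun _ _ => Finset.sum_nonneg fun _ _ => abs_nonneg _) (Finset.mem_univ i)
    exact (le_abs_self _).trans (h3.trans (h4.trans h2))
  obtain ⟨L, hL⟩ := hfin
  have hbd : ∀ k i z, z ∈ A k i → ∀ j, tc j z ≤ tc i z + L := by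
    intro k i z hz j
    have hne : {x ∈ X k | x - C z ∈ sector u i}.Nonempty := by
      by_contra hn
      rw [Set.not_nonempty_iff_eq_empty] at hn
      apply hz
      rw [hn]
      exact ⟨0, Set.empty_subset _⟩
    obtain ⟨x, hx, hxs⟩ := hne
    rw [hsecC] at hxs
    have h1 := hxs j
    have h2 := hL k x hx i j
    linarith
  obtain ⟨z, π, hz⟩ := colourful_kkm A hcl hcov L hbd
  exact ⟨C z, π, hz⟩

end Pool.Agent.H73.Dol
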