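import Mathlib
import Pool.Agent.H40.Brouwer2

/-!
# Colourful KKM theorem for three colours in the plane, and the reduction of Dol'nikov's problem to
one fan
-/

open Set Metric Filter Topology

namespace Pool.Agent.H73.Dol

/-- The Euclidean plane. -/
abbrev E2 : Type := EuclideanSpace ℝ (Fin 2)

/-- first orthonormal vector of the plane `t₀ + t₁ + t₂ = 0` -/
noncomputable def e1 : Fin 3 → ℝ := ![1 / √2, -(1 / √2), 0]

/-- second orthonormal vector of the plane `t₀ + t₁ + t₂ = 0` -/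
noncomputable def e2 : Fin 3 → ℝ := ![1 / √6, 1 / √6, -(2 / √6)]

/-- the three coordinates with sum `0` -/
noncomputable def tc (i : Fin 3) (z : E2) : ℝ := z 0 * e1 i + z 1 * e2 i

theorem tc_cont (i : Fin 3) : Continuous (tc i) := by
  unfold tc
  fun_prop

theorem tc_sum (z : E2) : tc 0 z + tc 1 z + tc 2 z = 0 := by
  simp [tc, e1, e2]
  ring

theorem sq2 : (1 / √2) ^ 2 = 1 / 2 := by
  rw [div_pow, Real.sq_sqrt (by norm_num), one_pow]

theorem sq6 : (1 / √6) ^ 2 = 1 / 6 := by
  rw [div_pow, Real.sq_sqrt (by norm_num), one_pow]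

theorem tc_sq (z : E2) : tc 0 z ^ 2 + tc 1 z ^ 2 + tc 2 z ^ 2 = ‖z‖ ^ 2 := by
  rw [EuclideanSpace.norm_sq_eq, Fin.sum_univ_two]
  simp only [Real.norm_eq_abs, sq_abs, tc, e1, e2, Matrix.cons_val_zero, Matrix.cons_val_one,
    Matrix.cons_val_two, Matrix.head_cons, Matrix.tail_cons]
  have h2 := sq2
  have h6 := sq6
  have h : (2 / √6) = 2 * (1 / √6) := by ring
  rw [h]
  simp
  set a := (√2)⁻¹ with ha
  set b := (√6)⁻¹ with hb
  have ha2 : a ^ 2 = 1 / 2 := by rw [ha, ← one_div]; exact h2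
  have hb2 : b ^ 2 = 1 / 6 := by rw [hb, ← one_div]; exact h6
  ring_nf
  rw [ha2, hb2]
  ring

theorem tc_abs (i : Fin 3) (z : E2) : |tc i z| ≤ ‖z‖ := by
  apply abs_le_of_sq_le_sq _ (norm_nonneg z)
  have := tc_sq z
  fin_cases i <;> simp only [Fin.zero_eta, Fin.mk_one, Fin.reduceFinMk] <;>
    nlinarith [sq_nonneg (tc 0 z), sq_nonneg (tc 1 z), sq_nonneg (tc 2 z)]

theorem tc_sub (i : Fin 3) (z w : E2) : tc i (z - w) = tc i z - tc i w := by
  simp [tc]
  ring

theorem tc_max (z : E2) : ∃ j, ‖z‖ ≤ 3 * tc j z := by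
  by_contra h
  push Not at h
  have h0 := h 0
  have h1 := h 1
  have h2 := h 2
  have hs := tc_sum z
  have hq := tc_sq z
  have hn := norm_nonneg z
  set a := tc 0 z
  set b := tc 1 z
  set c := tc 2 z
  set n := ‖z‖
  have hc : c = -a - b := by linarith
  rw [hc] at hq h2
  -- all of a, b, -a-b are < n/3
  nlinarith [mul_pos (sub_pos.mpr h0) (sub_pos.mpr h1), mul_pos (sub_pos.mpr h0) (sub_pos.mpr h2),
    mul_pos (sub_pos.mpr h1) (sub_pos.mpr h2)]

/-- zero of a vector field pointing outwards -/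
theorem exists_zero (R : ℝ) (hR : 0 < R) (v : E2 → E2) (hv : Continuous v)
    (hout : ∀ z, ‖z‖ = R → 0 < inner ℝ z (v z)) : ∃ z, ‖z‖ ≤ R ∧ v z = 0 := by
  by_contra hcon
  push Not at hcon
  obtain ⟨z, hz, hfz⟩ := H40Brouwer.brouwer_plane R hR (fun z => -(R / ‖v z‖) • v z) (by
    intro z hz
    have hz' : ‖z‖ ≤ R := by simpa using hz
    have h0 : ‖v z‖ ≠ 0 := norm_ne_zero_iff.mpr (hcon z hz')
    apply ContinuousAt.continuousWithinAt
    have := hv.continuousAt (x := z)
    fun_prop (disch := assumption)) (by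
    intro z hz
    have h0 : 0 < ‖v z‖ := norm_pos_iff.mpr (hcon z hz)
    rw [norm_smul, norm_neg, norm_div, norm_norm, Real.norm_of_nonneg hR.le,
      div_mul_cancel₀ _ h0.ne'])
  have h0 : 0 < ‖v z‖ := norm_pos_iff.mpr (hcon z hz)
  have hzn : ‖z‖ = R := by
    rw [← hfz, norm_smul, norm_neg, norm_div, norm_norm, Real.norm_of_nonneg hR.le,
      div_mul_cancel₀ _ h0.ne']
  have h1 := hout z hzn
  have hfz' : -(R / ‖v z‖) • v z = z := hfz
  have h2 : inner ℝ z (v z) = -(R / ‖v z‖) * ‖v z‖ ^ 2 := by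
    calc inner ℝ z (v z) = inner ℝ (-(R / ‖v z‖) • v z) (v z) := by rw [hfz']
      _ = -(R / ‖v z‖) * ‖v z‖ ^ 2 := by
        rw [inner_smul_left, real_inner_self_eq_norm_sq]
        simp only [conj_trivial]
  rw [h2] at h1
  have : 0 < R / ‖v z‖ * ‖v z‖ ^ 2 := by positivity
  linarith

/-- one colour: a partition of unity subordinate to the neighbourhoods of the closed sets -/
theorem part (A : Fin 3 → Set E2) (hcov : ∀ z, ∃ i, z ∈ A i) (ε : ℝ) (hε : 0 < ε) :
    ∃ f : Fin 3 → E2 → ℝ, (∀ i, Continuous (f i)) ∧ (∀ i z, 0 ≤ f i z) ∧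
      (∀ z, f 0 z + f 1 z + f 2 z = 1) ∧
      ∀ i z, 0 < f i z → ∃ z' ∈ A i, dist z z' < ε := by
  classical
  set φ : Fin 3 → E2 → ℝ := fun i z => if A i = ∅ then 0 else max 0 (ε - infDist z (A i)) with hφ
  have hφc : ∀ i, Continuous (φ i) := by
    intro i
    rw [hφ]
    simp only
    split_ifs
    · exact continuous_const
    · exact continuous_const.max (continuous_const.sub (continuous_infDist_pt _))
  have hφ0 : ∀ i z, 0 ≤ φ i z := by
    intro i z
    rw [hφ]
    simp only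
    split_ifs
    · exact le_rfl
    · exact le_max_left _ _
  have hφ1 : ∀ i z, z ∈ A i → 0 < φ i z := by
    intro i z hz
    rw [hφ]
    simp only
    rw [if_neg (Set.nonempty_iff_ne_empty.mp ⟨z, hz⟩), infDist_zero_of_mem hz, sub_zero]
    exact lt_max_of_lt_right hε
  have hφs : ∀ z, 0 < φ 0 z + φ 1 z + φ 2 z := by
    intro z
    obtain ⟨i, hi⟩ := hcov z
    have h := hφ1 i z hi
    have h0 := hφ0 0 z
    have h1 := hφ0 1 z
    have h2 := hφ0 2 z
    fin_cases i <;> simp only [Fin.zero_eta, Fin.mk_one, Fin.reduceFinMk] at h <;> linarith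
  refine ⟨fun i z => φ i z / (φ 0 z + φ 1 z + φ 2 z), fun i => ?_, fun i z => ?_, fun z => ?_,
    fun i z h => ?_⟩
  · exact (hφc i).div (((hφc 0).add (hφc 1)).add (hφc 2)) fun z => (hφs z).ne'
  · exact div_nonneg (hφ0 i z) (hφs z).le
  · have := (hφs z).ne'
    field_simp
  · have h1 : 0 < φ i z := by
      by_contra hn
      have : φ i z = 0 := le_antisymm (not_lt.mp hn) (hφ0 i z)
      simp only [this, zero_div, lt_self_iff_false] at h
    rw [hφ] at h1
    simp only at h1
    split_ifs at h1 with hA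
    · exact absurd h1 (lt_irrefl 0)
    · have hne : (A i).Nonempty := Set.nonempty_iff_ne_empty.mpr hA
      have h2 : infDist z (A i) < ε := by
        rcases lt_max_iff.mp h1 with h | h
        · exact absurd h (lt_irrefl 0)
        · linarith
      exact (infDist_lt_iff hne).mp h2

/-- Hall for doubly stochastic 3 × 3 matrices -/
theorem hall (f : Fin 3 → Fin 3 → ℝ) (hf : ∀ k i, 0 ≤ f k i) (hr : ∀ k, ∑ i, f k i = 1)
    (hc : ∀ i, ∑ k, f k i = 1) : ∃ π : Equiv.Perm (Fin 3), ∀ k, 0 < f k (π k) := by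
  classical
  have hall := (Finset.all_card_le_biUnion_card_iff_exists_injective
    (fun k : Fin 3 => Finset.univ.filter (fun i => 0 < f k i))).mp (by
      intro S
      set T := S.biUnion (fun k : Fin 3 => Finset.univ.filter (fun i => 0 < f k i)) with hT
      have h1 : (S.card : ℝ) = ∑ k ∈ S, ∑ i ∈ T, f k i := by
        have : ∀ k ∈ S, ∑ i ∈ T, f k i = 1 := by
          intro k hk
          rw [← hr k]
          apply Finset.sum_subset (Finset.subset_univ _)
          intro i _ hi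
          by_contra hne
          apply hi
          rw [hT, Finset.mem_biUnion]
          exact ⟨k, hk, Finset.mem_filter.mpr ⟨Finset.mem_univ _,
            lt_of_le_of_ne (hf k i) (Ne.symm hne)⟩⟩
        rw [Finset.sum_congr rfl this]
        simp
      have h2 : ∑ k ∈ S, ∑ i ∈ T, f k i ≤ T.card := by
        rw [Finset.sum_comm]
        have : ∀ i ∈ T, ∑ k ∈ S, f k i ≤ 1 := by
          intro i _
          rw [← hc i]
          exact Finset.sum_le_sum_of_subset_of_nonneg (Finset.subset_univ _) fun k _ _ => hf k i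
        refine (Finset.sum_le_sum this).trans ?_
        simp
      rw [← h1] at h2
      exact_mod_cast h2)
  obtain ⟨g, hg, hm⟩ := hall
  refine ⟨Equiv.ofBijective g ((Fintype.bijective_iff_injective_and_card g).mpr ⟨hg, rfl⟩),
    fun k => ?_⟩
  have := hm k
  rw [Finset.mem_filter] at this
  exact this.2

/-- approximate colourful KKM -/
theorem approx (A : Fin 3 → Fin 3 → Set E2) (hcov : ∀ k z, ∃ i, z ∈ A k i) (L : ℝ)
    (hbd : ∀ k i z, z ∈ A k i → ∀ j, tc j z ≤ tc i z + L) (ε : ℝ) (hε : 0 < ε) (hε1 : ε ≤ 1) :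
    ∃ z, ‖z‖ ≤ 3 * |L| + 10 ∧ ∃ π : Equiv.Perm (Fin 3), ∀ k, ∃ z' ∈ A k (π k), dist z z' < ε := by
  choose f hfc hf0 hf1 hfA using fun k => part (A k) (hcov k) ε hε
  set F : Fin 3 → E2 → ℝ := fun i z => f 0 i z + f 1 i z + f 2 i z with hF
  have hFc : ∀ i, Continuous (F i) := fun i => ((hfc 0 i).add (hfc 1 i)).add (hfc 2 i)
  have hF0 : ∀ i z, 0 ≤ F i z := fun i z => by
    have := hf0 0 i z
    have := hf0 1 i z
    have := hf0 2 i z
    rw [hF]
    simp only
    linarith
  have hFs : ∀ z, F 0 z + F 1 z + F 2 z = 3 := fun z => by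
    have := hf1 0 z
    have := hf1 1 z
    have := hf1 2 z
    rw [hF]
    simp only
    linarith
  have hFb : ∀ i z, 0 < F i z → ∀ j, tc j z ≤ tc i z + (|L| + 2) := by
    intro i z h j
    have h1 : ∃ k, 0 < f k i z := by
      by_contra hn
      push Not at hn
      have := hn 0
      have := hn 1
      have := hn 2
      rw [hF] at h
      simp only at h
      linarith
    obtain ⟨k, hk⟩ := h1
    obtain ⟨z', hz', hd⟩ := hfA k i z hk
    have h2 := hbd k i z' hz' j
    have h3 := tc_abs j (z - z')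
    have h4 := tc_abs i (z - z')
    rw [← dist_eq_norm, tc_sub] at h3 h4
    have h5 := abs_le.mp h3
    have h6 := abs_le.mp h4
    have h7 := le_abs_self L
    linarith [h5.2, h6.1]
  set v : E2 → E2 := fun z => WithLp.toLp 2 ![F 0 z * e1 0 + F 1 z * e1 1 + F 2 z * e1 2,
    F 0 z * e2 0 + F 1 z * e2 1 + F 2 z * e2 2] with hv
  have hinner : ∀ z, inner ℝ z (v z) = F 0 z * tc 0 z + F 1 z * tc 1 z + F 2 z * tc 2 z := by
    intro z
    rw [PiLp.inner_apply, Fin.sum_univ_two]
    simp [hv, tc]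
    ring
  have hvc : Continuous v := by
    rw [hv]
    have := hFc
    refine (PiLp.continuous_toLp 2 _).comp ?_
    refine continuous_pi fun i => ?_
    fin_cases i
    · simp
      fun_prop
    · simp
      fun_prop
  obtain ⟨z, hzR, hz⟩ := exists_zero (3 * |L| + 10) (by positivity) v hvc (by
    intro z hz
    rw [hinner]
    obtain ⟨j, hj⟩ := tc_max z
    have h1 : ∀ i, F i z * tc i z ≥ F i z * (tc j z - (|L| + 2)) := by
      intro i
      rcases (hF0 i z).eq_or_lt with h | h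
      · rw [← h]; simp
      · have := hFb i z h j
        apply mul_le_mul_of_nonneg_left _ h.le
        linarith
    have h2 := h1 0
    have h3 := h1 1
    have h4 := h1 2
    have h5 := hFs z
    have h6 : F 0 z * (tc j z - (|L| + 2)) + F 1 z * (tc j z - (|L| + 2)) +
        F 2 z * (tc j z - (|L| + 2)) = 3 * (tc j z - (|L| + 2)) := by
      rw [← h5]; ring
    linarith)
  refine ⟨z, hzR, ?_⟩
  have hz0 : F 0 z * e1 0 + F 1 z * e1 1 + F 2 z * e1 2 = 0 := by
    have := congrArg (fun w : E2 => w 0) hz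
    simpa [hv] using this
  have hz1 : F 0 z * e2 0 + F 1 z * e2 1 + F 2 z * e2 2 = 0 := by
    have := congrArg (fun w : E2 => w 1) hz
    simpa [hv] using this
  have h2 : (0 : ℝ) < 1 / √2 := by positivity
  have h6 : (0 : ℝ) < 1 / √6 := by positivity
  have hA : F 0 z = F 1 z := by
    have : (F 0 z - F 1 z) * (1 / √2) = 0 := by
      have h := hz0
      simp only [e1, Matrix.cons_val_zero, Matrix.cons_val_one, Matrix.cons_val_two,
        Matrix.head_cons, Matrix.tail_cons] at h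
      linarith
    rcases mul_eq_zero.mp this with h | h
    · linarith
    · exact absurd h h2.ne'
  have hB : F 0 z + F 1 z = 2 * F 2 z := by
    have : (F 0 z + F 1 z - 2 * F 2 z) * (1 / √6) = 0 := by
      have h := hz1
      simp only [e2, Matrix.cons_val_zero, Matrix.cons_val_one, Matrix.cons_val_two,
        Matrix.head_cons, Matrix.tail_cons] at h
      have e : (2 / √6) = 2 * (1 / √6) := by ring
      rw [e] at h
      linarith
    rcases mul_eq_zero.mp this with h | h
    · linarith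
    · exact absurd h h6.ne'
  have hs := hFs z
  have hF1 : ∀ i, F i z = 1 := by
    intro i
    fin_cases i <;> simp only [Fin.zero_eta, Fin.mk_one, Fin.reduceFinMk] <;> linarith
  obtain ⟨π, hπ⟩ := hall (fun k i => f k i z) (fun k i => hf0 k i z)
    (fun k => by rw [Fin.sum_univ_three]; exact hf1 k z)
    (fun i => by rw [Fin.sum_univ_three]; exact hF1 i)
  exact ⟨π, fun k => hfA k (π k) z (hπ k)⟩

/-- **Colourful KKM theorem** for three colours in the plane, with conditions at infinity. -/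
theorem colourful_kkm (A : Fin 3 → Fin 3 → Set E2) (hcl : ∀ k i, IsClosed (A k i))
    (hcov : ∀ k z, ∃ i, z ∈ A k i) (L : ℝ)
    (hbd : ∀ k i z, z ∈ A k i → ∀ j, tc j z ≤ tc i z + L) :
    ∃ (z : E2) (π : Equiv.Perm (Fin 3)), ∀ k, z ∈ A k (π k) := by
  set P : Equiv.Perm (Fin 3) → ℝ → Prop := fun π ε =>
    ∃ z, ‖z‖ ≤ 3 * |L| + 10 ∧ ∀ k, ∃ z' ∈ A k (π k), dist z z' < ε with hP
  have hmono : ∀ π ε ε', ε ≤ ε' → P π ε → P π ε' := by
    rintro π ε ε' h ⟨z, hz, hk⟩
    refine ⟨z, hz, fun k => ?_⟩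
    obtain ⟨z', h1, h2⟩ := hk k
    exact ⟨z', h1, h2.trans_le h⟩
  have hex : ∃ π, ∀ ε, 0 < ε → P π ε := by
    by_contra hcon
    push Not at hcon
    choose ε hε hno using hcon
    obtain ⟨π0, _, hmin⟩ := Finset.exists_min_image (Finset.univ : Finset (Equiv.Perm (Fin 3)))
      ε Finset.univ_nonempty
    set ε0 := min 1 (ε π0) with hε0
    have hpos : 0 < ε0 := lt_min one_pos (hε π0)
    obtain ⟨z, hz, π, hk⟩ := approx A hcov L hbd ε0 hpos (min_le_left _ _)
    exact hno π (hmono π ε0 (ε π) ((min_le_right _ _).trans (hmin π (Finset.mem_univ _)))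
      ⟨z, hz, hk⟩)
  obtain ⟨π, hπ⟩ := hex
  have hseq : ∀ n : ℕ, ∃ z, ‖z‖ ≤ 3 * |L| + 10 ∧ ∀ k, ∃ z' ∈ A k (π k), dist z z' < 1 / (n + 1) :=
    fun n => hπ _ (by positivity)
  choose z hz hzk using hseq
  have hcomp : IsCompact (closedBall (0 : E2) (3 * |L| + 10)) := isCompact_closedBall _ _
  obtain ⟨w, _, g, hg, hw⟩ := hcomp.tendsto_subseq (x := z) (fun n => by simpa using hz n)
  refine ⟨w, π, fun k => ?_⟩
  have hne : (A k (π k)).Nonempty := by
    obtain ⟨z', h1, _⟩ := hzk 0 k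
    exact ⟨z', h1⟩
  rw [← (hcl k (π k)).closure_eq, mem_closure_iff_infDist_zero hne]
  have h1 : Tendsto (fun n => infDist (z (g n)) (A k (π k))) atTop (𝓝 (infDist w (A k (π k)))) :=
    ((continuous_infDist_pt _).tendsto w).comp hw
  have h2 : Tendsto (fun n => infDist (z (g n)) (A k (π k))) atTop (𝓝 0) := by
    have h3 : Tendsto (fun n : ℕ => 1 / ((n : ℝ) + 1)) atTop (𝓝 0) :=
      tendsto_one_div_add_atTop_nhds_zero_nat
    have h4 : Tendsto (fun n : ℕ => 1 / ((g n : ℝ) + 1)) atTop (𝓝 0) :=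
      h3.comp hg.tendsto_atTop
    refine squeeze_zero (fun n => infDist_nonneg) (fun n => ?_) h4
    obtain ⟨z', hz', hd⟩ := hzk (g n) k
    exact (infDist_le_dist_of_mem hz').trans hd.le
  exact tendsto_nhds_unique h1 h2

end Pool.Agent.H73.Dol
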